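import Pool.Agent.Lib_MP_92ef0c_si.Final

set_option autoImplicit false

/-!
# MP_92ef0c_nt, Independence

Sets `P lam` of integers without small prime factors, one for every function `lam ≥ 0` on the finite
sets of natural numbers which is bounded on the sets of bounded diameter, for which the quantitative
conjecture of Dickson (Hardy-Littlewood) holds with the main term multiplied by the product of the
`lam A`, `A` the sets of values of forms with the same leading coefficient; these sets cannot be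
distinguished, along systems with equal factors, by the correlations with given weights and by
bilinear sums.
-/

namespace Pool.Agent.Results.MP_92ef0c_nt.Independence

open Finset

noncomputable section

/-- nonnegative and bounded on the sets of diameter at most `j`, for every `j` -/
def Adm (lam : Finset ℕ → ℝ) : Prop :=
  (∀ A, 0 ≤ lam A) ∧
    ∀ j : ℕ, ∃ b : ℝ, ∀ A : Finset ℕ, (∀ s ∈ A, ∀ t ∈ A, t ≤ s + j) → lam A ≤ b

open Classical in
/-- the factor of the system of the forms `n ↦ l.1 * n + l.2`, `l ∈ L`, at `n`: the product over the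
sets `A` of at least two forms of `L` with the same leading coefficient of `lam (values of A at n)` -/
def fac (lam : Finset ℕ → ℝ) (L : Finset (ℕ × ℕ)) (n : ℕ) : ℝ :=
  ∏ A ∈ L.powerset, if 2 ≤ A.card ∧ ∀ l ∈ A, ∀ l' ∈ A, l.1 = l'.1 then
    lam (A.image (fun l => l.1 * n + l.2)) else 1

/-- each of these sets `A` has diameter at most `R` (the constant terms differ by at most `R`) or
`lam (values of A at n) = 1` for all `n` -/
def Near (lam : Finset ℕ → ℝ) (R : ℕ) (L : Finset (ℕ × ℕ)) : Prop :=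
  ∀ A ⊆ L, 2 ≤ A.card → (∀ l ∈ A, ∀ l' ∈ A, l.1 = l'.1) →
    (∀ l ∈ A, ∀ l' ∈ A, l.2 ≤ l'.2 + R) ∨ ∀ n, lam (A.image (fun l => l.1 * n + l.2)) = 1

/-- `1` if all values of the forms at `n` lie in `P`, otherwise `0` -/
def ind (P : Set ℕ) (L : Finset (ℕ × ℕ)) (n : ℕ) : ℝ :=
  open Classical in if ∀ l ∈ L, l.1 * n + l.2 ∈ P then 1 else 0

/-- `S` is the singular series of the system: the limit of the products over the primes `p ≤ z` of
`(1 - ν(p)/p) (1 - 1/p)^(-k)`, `k` the number of forms, `ν(p)` the number of the classes `c` modulo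
`p` for which `p` divides one of the values at `c` -/
def IsSeries (L : Finset (ℕ × ℕ)) (S : ℝ) : Prop :=
  Filter.Tendsto (fun z : ℕ => ∏ p ∈ (Icc 1 z).filter Nat.Prime,
    ((1 - (((range p).filter (fun c => ∃ l ∈ L, p ∣ l.1 * c + l.2)).card : ℝ) / p) *
      ((1 - 1 / (p : ℝ))⁻¹) ^ L.card)) Filter.atTop (nhds S)

/-- The statement of Q1 for the pairs `n, n + e` of elements of `P`, restricted to the moduli `q`
divisible by `r` and to the classes `a ≡ c` modulo `r`, with the main term multiplied by `t`; for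
the set `P` of all primes, `r = 1` and `t = 1` it is the frozen statement at `d = e`. -/
def PairQ1 (P : Set ℕ) (e r c : ℕ) (t : ℝ) : Prop :=
  ∀ B C : ℝ, 0 ≤ B → 0 ≤ C →
    ∃ K : ℝ, ∃ x0 : ℝ, ∀ x : ℝ, x0 ≤ x → ∀ q a : ℕ, 0 < q → r ∣ q → a ≡ c [MOD r] →
      (q : ℝ) ≤ (Real.log x) ^ B →
      Nat.Coprime a q → Nat.Coprime (a + e) q →
      |(open Classical in (((Finset.range (⌊x⌋₊ + 1)).filter
            (fun n => n ∈ P ∧ n + e ∈ P ∧ n ≡ a [MOD q])).card : ℝ))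
        - t * (2 / (((Finset.range q).filter
              (fun A => Nat.Coprime A q ∧ Nat.Coprime (A + e) q)).card : ℝ)
          * (∏ p ∈ e.primeFactors.filter (fun p => 2 < p),
              (((p : ℝ) - 1) / ((p : ℝ) - 2)))
          * (∏' p : {p : ℕ // p.Prime ∧ 2 < p}, (1 - 1 / (((p : ℕ) : ℝ) - 1) ^ 2))
          * (∫ t in (2 : ℝ)..x, 1 / (Real.log t) ^ 2))|
        ≤ K * x / (Real.log x) ^ C

end

private theorem fac_eq (lam : Finset ℕ → ℝ) (L : Finset (ℕ × ℕ)) (n : ℕ) :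
    fac lam L n = Pool.MP_92ef0c_nt.SI.facn lam L n := by
  classical
  unfold fac Pool.MP_92ef0c_nt.SI.facn
  refine prod_congr rfl fun A _ => ?_
  by_cases h : 2 ≤ A.card ∧ ∀ l ∈ A, ∀ l' ∈ A, l.1 = l'.1
  · rw [if_pos h, if_pos (show 2 ≤ A.card ∧ Pool.MP_92ef0c_nt.SG.Par A from h)]
    rfl
  · rw [if_neg h, if_neg (show ¬ (2 ≤ A.card ∧ Pool.MP_92ef0c_nt.SG.Par A) from h)]

theorem result (F : ℕ → ℕ → ℝ) : ∃ P : (Finset ℕ → ℝ) → Set ℕ,
    ∀ lam : Finset ℕ → ℝ, Adm lam →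
      (∀ n ∈ P lam, ∀ p, p.Prime → p ∣ n → 2 ^ Nat.sqrt (Nat.log 2 n) < p) ∧
      (∀ A : Finset ℕ, 2 ≤ A.card →
        {n | (∀ a ∈ A, a + n ∈ P lam) ∧ lam (A.image (fun a => a + n)) = 0}.Finite) ∧
      (∀ (k R : ℕ) (ε : ℝ), 0 < ε → ∃ c K : ℝ, 0 < c ∧ 0 < K ∧
        ∀ (x : ℕ) (L : Finset (ℕ × ℕ)) (s : ℝ),
        2 ≤ x → L.card = k → (∀ l ∈ L, 0 < l.1 ∧ Nat.Coprime l.1 l.2) →
        (∀ l ∈ L, l.1 ≤ x ∧ l.2 ≤ x) → Near lam R L →
        (∀ n, fac lam L n = s) →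
        ∀ u v : ℕ, u ≤ v → v ≤ x → (x : ℝ) ^ ε ≤ (v : ℝ) - u → ∃ S : ℝ, IsSeries L S ∧
          |∑ n ∈ Ioc u v, ind (P lam) L n -
            s * S * ∑ n ∈ Ioc (max u 1) v, ∏ l ∈ L, 1 / Real.log ((l.1 * n + l.2 : ℕ) : ℝ)| ≤
            K * ((v : ℝ) - u) * Real.exp (-(c * √(Real.log x)))) ∧
      (∀ e r c : ℕ, 0 < e → Even e → 0 < r → Nat.Coprime c r → Nat.Coprime (c + e) r →
        ∀ s : ℝ, (∀ n, n ≡ c [MOD r] → lam {n, n + e} = s) →
        ∀ t : ℝ, (PairQ1 (P lam) e r c t ↔ t = s)) ∧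
      (∀ lam' : Finset ℕ → ℝ, Adm lam' → ∀ k R : ℕ, ∃ K : ℝ, 0 < K ∧
        ∀ (x : ℕ) (L : Finset (ℕ × ℕ)), 2 ≤ x → L.card = k →
        (∀ l ∈ L, 0 < l.1 ∧ l.1 ≤ x ∧ l.2 ≤ x) → Near lam R L → Near lam' R L →
        (∀ n, fac lam L n = fac lam' L n) →
        (∀ i u v : ℕ, u ≤ v → v ≤ x →
          |∑ n ∈ Ioc u v, F i n * (ind (P lam) L n - ind (P lam') L n)| ≤
            K * √(Real.log x * Real.log ((x : ℝ) + i) * ∑ n ∈ Ioc u v, (F i n) ^ 2)) ∧
        ∀ (m₀ n₀ : ℕ), m₀ * n₀ ≤ x → ∀ α β : ℕ → ℝ, (∀ m, |α m| ≤ 1) → (∀ n, |β n| ≤ 1) →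
          |∑ m ∈ Icc 1 m₀, ∑ n ∈ Icc 1 n₀, α m * β n *
            (ind (P lam) L (m * n) - ind (P lam') L (m * n))| ≤
            K * (Real.log x) ^ 2 * √((m₀ : ℝ) * n₀ * (m₀ + n₀))) := by
  simp only [fac_eq]
  exact Pool.MP_92ef0c_nt.SI.main F

end Pool.Agent.Results.MP_92ef0c_nt.Independence
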