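import Pool.Agent.Lib_MP_92ef0c_m.M45
import Pool.Agent.Lib_MP_92ef0c_m.M56

/-!
# MP_92ef0c_nt: joint law of the large prime factors of the four factors in `n = b c`, `n + h = a d`

Let `h ≥ 1`, `k ≥ 1` and let `n0`, `n0 + h` be coprime to `k`. Over the quadruples `(a, b, c, d)` with `n = b c`,
`n + h = a d`, `0 < n ≤ x`, `n ≡ n0 mod k`, `n` coprime to `h`, `α a ≤ d ≤ β a`, `γ b ≤ c ≤ δ b` (their number is asymptotic
to `κ log (β / α) log (δ / γ) x`) the numbers of prime factors of `a`, `b`, `c`, `d` in given windows `(y^u, y^v]`,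
`y = √x`, are asymptotically distributed as those of four independent random integers up to `y`, jointly with
`Ω(a), Ω(b), Ω(c), Ω(d)` modulo `q` (independent, uniform), for all `x → ∞`.
-/

set_option autoImplicit false

namespace Pool.Agent.Results.MP_92ef0c_nt.JointLaw

open Filter Pool.Agent.Spl

/-- the quadruples `e = (a, b, c, d)` of natural numbers with `n = b c`, `n + h = a d`, `0 < n ≤ x`, `n ≡ n0 mod k`,
`n` coprime to `h`, `α a ≤ d ≤ β a` and `γ b ≤ c ≤ δ b` (`Q4` is the structure of four natural numbers `a, b, c, d`) -/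
def window (h k n0 : ℕ) (α β γ δ x : ℝ) : Set Q4 :=
  {e | (e.a * e.d = e.b * e.c + h ∧ 0 < e.b * e.c ∧ ((e.b * e.c : ℕ) : ℝ) ≤ x) ∧
    (e.b * e.c ≡ n0 [MOD k] ∧ (e.b * e.c).Coprime h) ∧
    (α * e.a ≤ e.d ∧ (e.d : ℝ) ≤ β * e.a) ∧ (γ * e.b ≤ e.c ∧ (e.c : ℝ) ≤ δ * e.b)}

/-- the four numbers `a, b, c, d` -/
def entry (e : Q4) : Fin 4 → ℕ := ![e.a, e.b, e.c, e.d]

open Classical in
/-- the number of prime factors of `n`, counted with multiplicity, in the window `(y^u, y^v]` -/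
noncomputable def win (y u v : ℝ) (n : ℕ) : ℕ :=
  (n.primeFactorsList.filter (fun p : ℕ => y ^ u < (p : ℝ) ∧ (p : ℝ) ≤ y ^ v)).length

theorem win_eq (x u v : ℝ) (n : ℕ) : win x u v n = Pool.Agent.LPr.wc x u v n := rfl

/-- extension of a function on `Fin r` -/
noncomputable def ext {α : Type*} {r : ℕ} (u : Fin r → α) (c : α) (i : ℕ) : α := if h : i < r then u ⟨i, h⟩ else c

theorem ext_lt {α : Type*} {r : ℕ} (u : Fin r → α) (c : α) (i : Fin r) : ext u c i = u i := by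
  unfold ext
  rw [dif_pos i.2]

theorem ext_iff {r : ℕ} (u v : Fin r → ℝ) (k : Fin r → ℕ) (x : ℝ) (n : ℕ) :
    (∀ i < r, Pool.Agent.LPr.wc x (ext u 1 i) (ext v 1 i) n = ext k 0 i) ↔ ∀ i, win x (u i) (v i) n = k i := by
  constructor
  · intro h i
    have h1 := h i i.2
    rw [ext_lt, ext_lt, ext_lt] at h1
    exact h1
  · intro h i hi
    have h1 := h ⟨i, hi⟩
    have e1 := ext_lt u 1 ⟨i, hi⟩
    have e2 := ext_lt v 1 ⟨i, hi⟩
    have e3 := ext_lt k 0 ⟨i, hi⟩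
    simp only at e1 e2 e3
    rw [e1, e2, e3]
    exact h1

theorem int_class {q : ℕ} (hq : 0 < q) (r : ℤ) (m : ℕ) :
    ((m : ℤ) ≡ r [ZMOD q]) ↔ m ≡ (r % q).toNat [MOD q] := by
  have hq' : (q : ℤ) ≠ 0 := by exact_mod_cast hq.ne'
  have h1 : (((r % q).toNat : ℕ) : ℤ) = r % q := Int.toNat_of_nonneg (Int.emod_nonneg r hq')
  rw [← Int.natCast_modEq_iff, h1]
  constructor
  · intro h
    exact h.trans (Int.mod_modEq r q).symm
  · intro h
    exact h.trans (Int.mod_modEq r q)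

theorem result :
    ∀ h k n0 : ℕ, 0 < h → 0 < k → n0.Coprime k → (n0 + h).Coprime k →
      ∃ κ : ℝ, 0 < κ ∧ ∀ α β γ δ : ℝ, 0 < α → α ≤ β → 0 < γ → γ ≤ δ →
        Tendsto (fun x : ℝ => (Set.ncard (window h k n0 α β γ δ x) : ℝ) / x) atTop
          (nhds (κ * (Real.log (β / α) * Real.log (δ / γ)))) ∧
        ∀ (r : Fin 4 → ℕ) (u v : (i : Fin 4) → Fin (r i) → ℝ) (l : (i : Fin 4) → Fin (r i) → ℕ),
          (∀ i j, 0 < u i j ∧ u i j ≤ v i j) →
          ∃ c : Fin 4 → ℝ,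
            (∀ i, Tendsto (fun y : ℝ => (Set.ncard {n : ℕ | 1 ≤ n ∧ (n : ℝ) ≤ y ∧
              ∀ j, win y (u i j) (v i j) n = l i j} : ℝ) / y) atTop (nhds (c i))) ∧
            ∀ q : ℕ, 0 < q → ∀ s : Fin 4 → ℤ,
              Tendsto (fun x : ℝ => (Set.ncard {e : Q4 | e ∈ window h k n0 α β γ δ x ∧ ∀ i,
                (ArithmeticFunction.cardFactors (entry e i) : ℤ) ≡ s i [ZMOD q] ∧
                ∀ j, win (Real.sqrt x) (u i j) (v i j) (entry e i) = l i j} : ℝ) / x) atTop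
                (nhds (κ * (Real.log (β / α) * Real.log (δ / γ)) * (∏ i, c i) / (q : ℝ) ^ 4)) := by
  intro h k n0 hh hk h1 h2
  obtain ⟨κ, hκ, H⟩ := Pool.Agent.SplL.fac_law4 Pool.Agent.SplL.bs h k n0 hh hk h1 h2
  refine ⟨κ, hκ, fun α β γ δ hα hαβ hγ hγδ => ?_⟩
  obtain ⟨H1, H2⟩ := H α β γ δ hα hαβ hγ hγδ
  refine ⟨H1, fun r u v l huv => ?_⟩
  obtain ⟨c, hc, H3⟩ := H2 r (fun i => ext (u i) 1) (fun i => ext (v i) 1) (fun i => ext (l i) 0) (by
    intro i j hj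
    have e1 := ext_lt (u i) 1 ⟨j, hj⟩
    have e2 := ext_lt (v i) 1 ⟨j, hj⟩
    simp only at e1 e2
    rw [e1, e2]
    exact huv i ⟨j, hj⟩)
  simp only [ext_iff] at hc
  refine ⟨c, hc, fun q hq s => ?_⟩
  refine (H3 q hq (fun i => (s i % q).toNat)).congr fun x => ?_
  unfold Pool.Agent.SplL.PC
  simp only [ext_iff, int_class hq]
  rfl

end Pool.Agent.Results.MP_92ef0c_nt.JointLaw
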