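import Pool.Agent.Lib_MP_92ef0c_rw.R5
import Pool.Agent.Lib_MP_92ef0c_rw.Prl

/-!
# MP_92ef0c_nt: the pairs `n, n + h` in progressions to almost all moduli `a b k`, from boundedly many terms

Let `h, k ≥ 1` and let `n0`, `n0 + h` be coprime to `k`. For integers `a, b` with `a, b, k` coprime in pairs the conditions
`b ∣ n`, `a ∣ n + h`, `n ≡ n0 mod k` define a progression modulo `a b k`. For almost all pairs `(a, b)` with
`Y < a, b ≤ 2 Y` its first `J` members (and, up to `ε J`, its first `j` members for every `j ≤ J`) already show the joint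
law of `Ω(n)`, `Ω(n + h)` modulo `q` and of the large prime factors of `n / b` and `(n + h) / a` which holds for two
independent random integers; `J` does not depend on `Y`.
-/

set_option autoImplicit false

namespace Pool.Agent.Results.MP_92ef0c_nt.LargeModuli

open Filter

/-- the natural numbers `n < J a b k` with `b ∣ n`, `a ∣ n + h` and `n ≡ n0 mod k`: if `a, b, k` are coprime in pairs, the
first `J` members of a progression modulo `a b k` -/
def progression (h k n0 a b J : ℕ) : Set ℕ := {n | n < J * (a * b * k) ∧ b ∣ n ∧ a ∣ n + h ∧ n ≡ n0 [MOD k]}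

open Classical in
/-- the number of prime factors of `n`, counted with multiplicity, in the window `(y^u, y^v]` -/
noncomputable def win (y u v : ℝ) (n : ℕ) : ℕ :=
  (n.primeFactorsList.filter (fun p : ℕ => y ^ u < (p : ℝ) ∧ (p : ℝ) ≤ y ^ v)).length

theorem win_eq (x u v : ℝ) (n : ℕ) : win x u v n = Pool.Agent.LPr.wc x u v n := rfl

/-- extension of a function on `Fin r` -/
noncomputable def ext {α : Type*} {r : ℕ} (u : Fin r → α) (c : α) (i : ℕ) : α := if h : i < r then u ⟨i, h⟩ else c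

theorem ext_lt {α : Type*} {r : ℕ} (u : Fin r → α) (c : α) (i : Fin r) : ext u c i = u i := by
  unfold ext
  rw [dif_pos i.2]

theorem ext_iff {r : ℕ} (u v : Fin r → ℝ) (k : Fin r → ℕ) (x : ℝ) (n : ℕ) :
    (∀ i < r, Pool.Agent.LPr.wc x (ext u 1 i) (ext v 1 i) n = ext k 0 i) ↔ ∀ i, win x (u i) (v i) n = k i := by
  constructor
  · intro h i
    have h1 := h i i.2
    rw [ext_lt, ext_lt, ext_lt] at h1
    exact h1
  · intro h i hi
    have h1 := h ⟨i, hi⟩
    have e1 := ext_lt u 1 ⟨i, hi⟩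
    have e2 := ext_lt v 1 ⟨i, hi⟩
    have e3 := ext_lt k 0 ⟨i, hi⟩
    simp only at e1 e2 e3
    rw [e1, e2, e3]
    exact h1

theorem int_class {q : ℕ} (hq : 0 < q) (r : ℤ) (m : ℕ) :
    ((m : ℤ) ≡ r [ZMOD q]) ↔ m ≡ (r % q).toNat [MOD q] := by
  have hq' : (q : ℤ) ≠ 0 := by exact_mod_cast hq.ne'
  have h1 : (((r % q).toNat : ℕ) : ℤ) = r % q := Int.toNat_of_nonneg (Int.emod_nonneg r hq')
  rw [← Int.natCast_modEq_iff, h1]
  constructor
  · intro h
    exact h.trans (Int.mod_modEq r q).symm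
  · intro h
    exact h.trans (Int.mod_modEq r q)

/-- the members `n` of the progression coprime to `h` with `Ω(n) ≡ s`, `Ω(n + h) ≡ s'` modulo `q`, exactly `l i` prime
factors of `n / b` in the window `(Y^(u i), Y^(v i)]` and exactly `l' i` prime factors of `(n + h) / a` in the window
`(Y^(u' i), Y^(v' i)]` -/
def hits (h k n0 a b J q : ℕ) (s s' : ℤ) {r r' : ℕ} (u v : Fin r → ℝ) (u' v' : Fin r' → ℝ) (l : Fin r → ℕ)
    (l' : Fin r' → ℕ) (Y : ℝ) : Set ℕ :=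
  {n | n ∈ progression h k n0 a b J ∧ n.Coprime h ∧
    (ArithmeticFunction.cardFactors n : ℤ) ≡ s [ZMOD q] ∧ (ArithmeticFunction.cardFactors (n + h) : ℤ) ≡ s' [ZMOD q] ∧
    (∀ i, win Y (u i) (v i) (n / b) = l i) ∧ ∀ i, win Y (u' i) (v' i) ((n + h) / a) = l' i}

open Classical in
theorem prg_eq (h k n0 a b J : ℕ) : ((Pool.Agent.SplR.prg h k n0 a b J : Finset ℕ) : Set ℕ) = progression h k n0 a b J := by
  ext n
  unfold Pool.Agent.SplR.prg progression
  simp only [Finset.coe_filter, Finset.mem_range, Set.mem_ofPred_eq]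

theorem result :
    ∀ h k n0 : ℕ, 0 < h → 0 < k → n0.Coprime k → (n0 + h).Coprime k →
      (∀ a b J : ℕ, 0 < a → 0 < b → a.Coprime b → (a * b).Coprime k →
        (progression h k n0 a b J).ncard = J ∧
        ((a * b).Coprime h → J / h ≤ {n ∈ progression h k n0 a b J | n.Coprime h}.ncard)) ∧
      ∀ (r r' : ℕ) (u v : Fin r → ℝ) (u' v' : Fin r' → ℝ) (l : Fin r → ℕ) (l' : Fin r' → ℕ),
        (∀ i, 0 < u i ∧ u i ≤ v i) → (∀ i, 0 < u' i ∧ u' i ≤ v' i) →
        ∃ c c' : ℝ,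
          Tendsto (fun y : ℝ => (Set.ncard {n : ℕ | 1 ≤ n ∧ (n : ℝ) ≤ y ∧ ∀ i, win y (u i) (v i) n = l i} : ℝ) / y)
            atTop (nhds c) ∧
          Tendsto (fun y : ℝ => (Set.ncard {n : ℕ | 1 ≤ n ∧ (n : ℝ) ≤ y ∧ ∀ i, win y (u' i) (v' i) n = l' i} : ℝ) / y)
            atTop (nhds c') ∧
          ∀ q : ℕ, 0 < q → ∀ ε : ℝ, 0 < ε → ∃ J0 : ℕ, ∀ J : ℕ, J0 ≤ J → ∃ Y0 : ℝ, ∀ Y : ℝ, Y0 ≤ Y →
            (Set.ncard {V : ℕ × ℕ | (Y < V.1 ∧ (V.1 : ℝ) ≤ 2 * Y) ∧ (Y < V.2 ∧ (V.2 : ℝ) ≤ 2 * Y) ∧ ∃ j ≤ J, ∃ s s' : ℤ,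
              ε * J < |(Set.ncard (hits h k n0 V.1 V.2 j q s s' u v u' v' l l' Y) : ℝ) - c * c' / (q : ℝ) ^ 2 *
                (Set.ncard {n ∈ progression h k n0 V.1 V.2 j | n.Coprime h} : ℝ)|} : ℝ) ≤ ε * Y ^ 2 := by
  classical
  intro h k n0 hh hk h1 h2
  refine ⟨fun a b J ha hb hab habk => ⟨Pool.Agent.SplR.prg_card h k n0 a b J hk ha hb hab habk, fun habh => ?_⟩, ?_⟩
  · exact Pool.Agent.SplR.prg_low h k n0 a b J hh hk h1 ha hb hab (Nat.Coprime.mul_right habk habh)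
  intro r r' u v u' v' l l' hu hu'
  obtain ⟨c, c', hc, hc', H⟩ := Pool.Agent.SplR.rows_unif Pool.Agent.SplL.bs h k n0 hh hk h1 h2 r r' (ext u 1) (ext v 1)
    (ext u' 1) (ext v' 1) (ext l 0) (ext l' 0)
    (fun i hi => by
      have e1 := ext_lt u 1 ⟨i, hi⟩
      have e2 := ext_lt v 1 ⟨i, hi⟩
      simp only at e1 e2
      rw [e1, e2]
      exact hu ⟨i, hi⟩)
    (fun i hi => by
      have e1 := ext_lt u' 1 ⟨i, hi⟩
      have e2 := ext_lt v' 1 ⟨i, hi⟩
      simp only at e1 e2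
      rw [e1, e2]
      exact hu' ⟨i, hi⟩)
  simp only [ext_iff] at hc hc'
  refine ⟨c, c', hc, hc', fun q hq ε hε => ?_⟩
  obtain ⟨J0, hJ0⟩ := H q hq ε hε
  refine ⟨J0, fun J hJ => ?_⟩
  obtain ⟨Y0, hY0⟩ := eventually_atTop.1 (hJ0 J hJ)
  refine ⟨Y0, fun Y hY => le_trans ?_ (hY0 Y hY)⟩
  simp only [ext_iff]
  norm_cast
  refine Set.ncard_le_ncard ?_ ?_
  · rintro V ⟨hV1, hV2, j, hj, s, s', hs⟩
    refine ⟨hV1, hV2, j, hj, (s % q).toNat, (s' % q).toNat, ?_⟩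
    have e1 : hits h k n0 V.1 V.2 j q s s' u v u' v' l l' Y =
        (((Pool.Agent.SplR.prg h k n0 V.1 V.2 j).filter (fun n => n.Coprime h ∧
          (ArithmeticFunction.cardFactors n ≡ (s % q).toNat [MOD q] ∧
            ArithmeticFunction.cardFactors (n + h) ≡ (s' % q).toNat [MOD q]) ∧
          (∀ i, win Y (u i) (v i) (n / V.2) = l i) ∧
          (∀ i, win Y (u' i) (v' i) ((n + h) / V.1) = l' i)) : Finset ℕ) : Set ℕ) := by
      ext n
      unfold hits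
      rw [Finset.coe_filter, Set.mem_ofPred_eq, Set.mem_ofPred_eq, ← Finset.mem_coe, prg_eq, int_class hq, int_class hq,
        and_assoc]
    have e2 : {n ∈ progression h k n0 V.1 V.2 j | n.Coprime h} =
        (((Pool.Agent.SplR.prg h k n0 V.1 V.2 j).filter (fun n => n.Coprime h) : Finset ℕ) : Set ℕ) := by
      ext n
      rw [Finset.coe_filter, Set.mem_ofPred_eq, Set.mem_ofPred_eq, ← Finset.mem_coe, prg_eq]
    rw [e1, e2, Set.ncard_coe_finset, Set.ncard_coe_finset] at hs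
    exact hs
  · have hfin : ((Finset.range (⌊2 * Y⌋₊ + 1) ×ˢ Finset.range (⌊2 * Y⌋₊ + 1) : Finset (ℕ × ℕ)) : Set (ℕ × ℕ)).Finite :=
      Finset.finite_toSet _
    refine hfin.subset ?_
    rintro V ⟨⟨-, hV1⟩, ⟨-, hV2⟩, -⟩
    rw [Finset.mem_coe, Finset.mem_product, Finset.mem_range, Finset.mem_range]
    exact ⟨Nat.lt_succ_of_le (Nat.le_floor hV1), Nat.lt_succ_of_le (Nat.le_floor hV2)⟩

end Pool.Agent.Results.MP_92ef0c_nt.LargeModuli
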