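import Pool.Agent.Lib_MP_92ef0c_pf.Fin1
import Pool.Agent.Lib_MP_92ef0c_m.M45

/-!
# MP_92ef0c_nt: several members of the progressions `b ∣ n`, `a ∣ n + h`, `n ≡ n0 mod k`

Let `h ∣ k` and let `n0`, `n0 + h` be coprime to `k`. For `Y < a, b ≤ 2 Y` with `a`, `b`, `k` coprime in pairs let
`n_j = n_0 + j a b k`, `j = 0, 1, 2, …`, be the members of the progression `b ∣ n`, `a ∣ n + h`, `n ≡ n0 mod k`.
Over the pairs `(a, b)`, as `Y → ∞`:
* the numbers of prime factors in given windows, and `Ω` modulo `q`, of the four numbers `n_(i+s) / b`,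
  `(n_(i+s) + h) / a`, `n_i / b`, `(n_i + h) / a` are asymptotically distributed as those of four independent random
  integers, if all prime factors of `s` divide `k`;
* if `6 ∣ k`, every sign pattern of `λ(n) λ(n + h)` at three consecutive members has positive lower frequency
  (averaged over two consecutive positions);
* for `m, t ≥ 1`, all prime factors of `m t` dividing `k`, the products `T_j` of `λ(n) λ(n + h)` over the `m` members
  `n_j, n_(j+t), …, n_(j+(m-1)t)` are such that the mean of `|T_i + T_(i+t)|` tends to `1`;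
* if all primes below `K` divide `k`, the number of `j < K` for which `n_j / b`, `(n_j + h) / a` satisfy given conditions
  of this kind has asymptotically the variance `K p (1 - p)` of independent trials, and the mean square of
  `∑_(j < K) λ(n_j) λ(n_j + h)` tends to `K`.
-/

set_option autoImplicit false

namespace Pool.Agent.Results.MP_92ef0c_nt.PairFan

open Filter Finset

/-- the pairs `(a, b)` with `Y < a, b ≤ 2 Y`, `a` and `b` coprime, `a b` coprime to `k` -/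
noncomputable def pairs (k : ℕ) (Y : ℝ) : Finset (ℕ × ℕ) :=
  (Icc 1 ⌊2 * Y⌋₊ ×ˢ Icc 1 ⌊2 * Y⌋₊).filter
    (fun V => Y < V.1 ∧ Y < V.2 ∧ V.1.Coprime V.2 ∧ (V.1 * V.2).Coprime k)

/-- for `V = (a, b)`: `n_j = n_0 + j a b k`, `n_0` the least `n` with `b ∣ n`, `a ∣ n + h`, `n ≡ n0 mod k` -/
noncomputable def member (h k n0 j : ℕ) (V : ℕ × ℕ) : ℕ :=
  sInf {n : ℕ | V.2 ∣ n ∧ V.1 ∣ n + h ∧ n ≡ n0 [MOD k]} + j * (V.1 * V.2 * k)

/-- `λ(n) λ(n + h)` for the Liouville function `λ(n) = (-1)^Ω(n)` -/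
def chi (h n : ℕ) : ℤ :=
  (-1) ^ ArithmeticFunction.cardFactors n * (-1) ^ ArithmeticFunction.cardFactors (n + h)

open Classical in
/-- the number of prime factors of `n`, counted with multiplicity, in the window `(y^u, y^v]` -/
noncomputable def win (y u v : ℝ) (n : ℕ) : ℕ :=
  (n.primeFactorsList.filter (fun p : ℕ => y ^ u < (p : ℝ) ∧ (p : ℝ) ≤ y ^ v)).length

/-- for all `(u, v, l)` in the list `L`: `n` has exactly `l` prime factors in `(y^u, y^v]` -/
def Windows (L : List (ℝ × ℝ × ℕ)) (y : ℝ) (n : ℕ) : Prop :=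
  ∀ t ∈ L, win y t.1 t.2.1 n = t.2.2

/-- the four numbers `n_(i+s) / b`, `(n_(i+s) + h) / a`, `n_i / b`, `(n_i + h) / a` -/
noncomputable def four (h k n0 i s : ℕ) (V : ℕ × ℕ) : Fin 4 → ℕ :=
  ![member h k n0 (i + s) V / V.2, (member h k n0 (i + s) V + h) / V.1,
    member h k n0 i V / V.2, (member h k n0 i V + h) / V.1]

/-! ### Comparison with the library -/

theorem pairs_eq {k : ℕ} {Y : ℝ} (hY : 0 ≤ Y) : pairs k Y = Pool.Agent.PairFan.pairs k Y := by
  ext V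
  rw [Pool.Agent.PairFan.mem_pairs hY]
  unfold pairs
  rw [mem_filter, mem_product, mem_Icc, mem_Icc, Nat.le_floor_iff (by linarith : (0 : ℝ) ≤ 2 * Y),
    Nat.le_floor_iff (by linarith : (0 : ℝ) ≤ 2 * Y)]
  constructor
  · rintro ⟨⟨⟨-, a1⟩, ⟨-, a2⟩⟩, a3, a4, a5, a6⟩
    exact ⟨⟨a3, a1⟩, ⟨a4, a2⟩, a5, a6⟩
  · rintro ⟨⟨a3, a1⟩, ⟨a4, a2⟩, a5, a6⟩
    have b1 : (0 : ℝ) < V.1 := lt_of_le_of_lt hY a3
    have b2 : (0 : ℝ) < V.2 := lt_of_le_of_lt hY a4
    exact ⟨⟨⟨by exact_mod_cast b1, a1⟩, ⟨by exact_mod_cast b2, a2⟩⟩, a3, a4, a5, a6⟩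

theorem pairs_pos {k : ℕ} {Y : ℝ} {V : ℕ × ℕ} (hV : V ∈ pairs k Y) :
    0 < V.1 ∧ 0 < V.2 ∧ V.1.Coprime V.2 ∧ (V.1 * V.2).Coprime k := by
  unfold pairs at hV
  rw [mem_filter, mem_product, mem_Icc, mem_Icc] at hV
  exact ⟨hV.1.1.1, hV.1.2.1, hV.2.2.2.1, hV.2.2.2.2⟩

/-- the member `n_j` is the only one in `[j a b k, (j + 1) a b k)` -/
theorem member_spec {h k n0 : ℕ} (hk : 0 < k) {V : ℕ × ℕ} (ha : 0 < V.1) (hb : 0 < V.2) (hab : V.1.Coprime V.2)
    (habk : (V.1 * V.2).Coprime k) (j n : ℕ) :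
    Pool.Agent.PairFan.Mem h k n0 j V n ↔ n = member h k n0 j V := by
  have hm : 0 < V.1 * V.2 * k := Nat.mul_pos (Nat.mul_pos ha hb) hk
  have key : ∀ i, ∃! n, Pool.Agent.PairFan.Mem h k n0 i V n := fun i =>
    Pool.Agent.PairFan.mem_ex i ha hb hk hab habk
  obtain ⟨n', hn', -⟩ := key 0
  have hne : {n : ℕ | V.2 ∣ n ∧ V.1 ∣ n + h ∧ n ≡ n0 [MOD k]}.Nonempty := ⟨n', hn'.2⟩
  have h1 := Nat.sInf_mem hne
  have h2 : sInf {n : ℕ | V.2 ∣ n ∧ V.1 ∣ n + h ∧ n ≡ n0 [MOD k]} < V.1 * V.2 * k := by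
    refine lt_of_le_of_lt (Nat.sInf_le hn'.2) ?_
    have := hn'.1.2
    rwa [zero_add, one_mul] at this
  have h3 : Pool.Agent.PairFan.Mem h k n0 j V (member h k n0 j V) := by
    unfold member
    obtain ⟨c1, c2, c3⟩ := h1
    refine ⟨⟨Nat.le_add_left _ _, ?_⟩, ?_, ?_, ?_⟩
    · have : (j + 1) * (V.1 * V.2 * k) = j * (V.1 * V.2 * k) + V.1 * V.2 * k := by ring
      omega
    · exact (Nat.dvd_add_right c1).2 ⟨j * V.1 * k, by ring⟩
    · have : sInf {n : ℕ | V.2 ∣ n ∧ V.1 ∣ n + h ∧ n ≡ n0 [MOD k]} + j * (V.1 * V.2 * k) + h =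
          (sInf {n : ℕ | V.2 ∣ n ∧ V.1 ∣ n + h ∧ n ≡ n0 [MOD k]} + h) + j * (V.1 * V.2 * k) := by ring
      rw [this]
      exact (Nat.dvd_add_right c2).2 ⟨j * V.2 * k, by ring⟩
    · have h6 : sInf {n : ℕ | V.2 ∣ n ∧ V.1 ∣ n + h ∧ n ≡ n0 [MOD k]} + j * (V.1 * V.2 * k) ≡
          sInf {n : ℕ | V.2 ∣ n ∧ V.1 ∣ n + h ∧ n ≡ n0 [MOD k]} + 0 [MOD k] :=
        Nat.ModEq.add_left _ ((Nat.modEq_zero_iff_dvd).2 ⟨j * (V.1 * V.2), by ring⟩)
      rw [add_zero] at h6
      exact h6.trans c3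
  constructor
  · intro h4
    exact (key j).unique h4 h3
  · rintro rfl
    exact h3

theorem member_add (h k n0 i s : ℕ) (V : ℕ × ℕ) :
    member h k n0 (i + s) V = member h k n0 i V + s * (V.1 * V.2 * k) := by
  unfold member
  ring

/-- filtering by a property of the member -/
theorem filter_mem {h k n0 : ℕ} (hk : 0 < k) (i : ℕ) {Y : ℝ} (hY : 0 ≤ Y) (P : ℕ × ℕ → ℕ → Prop)
    [DecidablePred fun V : ℕ × ℕ => P V (member h k n0 i V)]
    [DecidablePred fun V : ℕ × ℕ => ∃ n, Pool.Agent.PairFan.Mem h k n0 i V n ∧ P V n] :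
    (pairs k Y).filter (fun V => P V (member h k n0 i V)) =
      (Pool.Agent.PairFan.pairs k Y).filter (fun V => ∃ n, Pool.Agent.PairFan.Mem h k n0 i V n ∧ P V n) := by
  rw [← pairs_eq hY]
  refine filter_congr fun V hV => ?_
  obtain ⟨a1, a2, a3, a4⟩ := pairs_pos hV
  constructor
  · intro h1
    exact ⟨_, (member_spec hk a1 a2 a3 a4 i _).2 rfl, h1⟩
  · rintro ⟨n, h1, h2⟩
    rwa [(member_spec hk a1 a2 a3 a4 i n).1 h1] at h2

/-- the members below `K a b k` -/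
theorem prog_members {h k n0 : ℕ} (hk : 0 < k) {V : ℕ × ℕ} (ha : 0 < V.1) (hb : 0 < V.2) (hab : V.1.Coprime V.2)
    (habk : (V.1 * V.2).Coprime k) (K : ℕ) :
    Pool.Agent.PairFan.prog h k n0 K V = (range K).image (fun j => member h k n0 j V) ∧
      Set.InjOn (fun j => member h k n0 j V) (range K : Set ℕ) := by
  have hm : 0 < V.1 * V.2 * k := Nat.mul_pos (Nat.mul_pos ha hb) hk
  constructor
  · ext n
    unfold Pool.Agent.PairFan.prog
    rw [mem_filter, mem_range, mem_image]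
    constructor
    · rintro ⟨h1, h2⟩
      refine ⟨n / (V.1 * V.2 * k), ?_, ?_⟩
      · rw [mem_range]
        exact Nat.div_lt_of_lt_mul (by rw [mul_comm]; exact h1)
      · symm
        rw [← member_spec hk ha hb hab habk]
        refine ⟨⟨Nat.div_mul_le_self n _, ?_⟩, h2⟩
        have := Nat.lt_mul_of_div_lt (Nat.lt_succ_self (n / (V.1 * V.2 * k))) hm
        exact this
    · rintro ⟨j, hj, rfl⟩
      obtain ⟨⟨-, h2⟩, h3⟩ := (member_spec (n0 := n0) (h := h) hk ha hb hab habk j _).2 rfl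
      rw [mem_range] at hj
      exact ⟨lt_of_lt_of_le h2 (Nat.mul_le_mul_right _ hj), h3⟩
  · intro j _ j' _ h1
    have h2 : member h k n0 j V = member h k n0 j' V := h1
    unfold member at h2
    exact Nat.eq_of_mul_eq_mul_right hm (Nat.add_left_cancel h2)

/-- windows given by a list -/
theorem list_iff {α : Type*} (L : List α) (d : α) (P : α → Prop) :
    (∀ t < L.length, P (L.getD t d)) ↔ ∀ x ∈ L, P x := by
  constructor
  · intro h x hx
    obtain ⟨i, hi, rfl⟩ := List.mem_iff_getElem.1 hx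
    have := h i hi
    rwa [List.getD_eq_getElem _ _ hi] at this
  · intro h t ht
    rw [List.getD_eq_getElem _ _ ht]
    exact h _ (List.getElem_mem ht)

/-- the lower ends, upper ends and counts of a list of windows -/
noncomputable def eu (L : List (ℝ × ℝ × ℕ)) (t : ℕ) : ℝ := (L.getD t (1, 1, 0)).1

/-- the upper ends -/
noncomputable def ev (L : List (ℝ × ℝ × ℕ)) (t : ℕ) : ℝ := (L.getD t (1, 1, 0)).2.1

/-- the counts -/
def el (L : List (ℝ × ℝ × ℕ)) (t : ℕ) : ℕ := (L.getD t (1, 1, 0)).2.2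

theorem windows_iff (L : List (ℝ × ℝ × ℕ)) (y : ℝ) (n : ℕ) :
    (∀ t < L.length, Pool.Agent.LPr.wc y (eu L t) (ev L t) n = el L t) ↔ Windows L y n :=
  list_iff L (1, 1, 0) (fun t => win y t.1 t.2.1 n = t.2.2)

theorem adm_iff (L : List (ℝ × ℝ × ℕ)) :
    (∀ t < L.length, 0 < eu L t ∧ eu L t ≤ ev L t) ↔ ∀ t ∈ L, 0 < t.1 ∧ t.1 ≤ t.2.1 :=
  list_iff L (1, 1, 0) (fun t => 0 < t.1 ∧ t.1 ≤ t.2.1)

theorem shape_iff (q w : ℕ) (L : List (ℝ × ℝ × ℕ)) (y : ℝ) (n : ℕ) :
    Pool.Agent.PairFan.Shape q w L.length (eu L) (ev L) (el L) y n ↔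
      (ArithmeticFunction.cardFactors n ≡ w [MOD q] ∧ Windows L y n) := by
  unfold Pool.Agent.PairFan.Shape
  rw [windows_iff]

theorem dens_iff (L : List (ℝ × ℝ × ℕ)) (c : ℝ) :
    Pool.Agent.PairFan.Dens L.length (eu L) (ev L) (el L) c ↔
      Tendsto (fun y : ℝ => (Set.ncard {n : ℕ | 1 ≤ n ∧ (n : ℝ) ≤ y ∧ Windows L y n} : ℝ) / y) atTop (nhds c) := by
  unfold Pool.Agent.PairFan.Dens
  simp only [windows_iff]

theorem smooth_of {k K : ℕ} (hk : 0 < k) (hK : ∀ p : ℕ, p.Prime → p < K → p ∣ k) (d : ℕ) (hd : 0 < d) (hdK : d < K) :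
    d.primeFactors ⊆ k.primeFactors := by
  intro p hp
  rw [Nat.mem_primeFactors] at hp ⊢
  exact ⟨hp.1, hK p hp.1 (lt_of_le_of_lt (Nat.le_of_dvd hd hp.2.1) hdK), hk.ne'⟩

/-! ### Products over several members -/

theorem chi_or (h n : ℕ) : chi h n = 1 ∨ chi h n = -1 := Pool.Agent.PairFan.chi_or h n

theorem prod_sign (x : ℕ → ℤ) (hx : ∀ j, x j = 1 ∨ x j = -1) (s : Finset ℕ) (f : ℕ → ℕ) :
    ∏ l ∈ s, x (f l) = 1 ∨ ∏ l ∈ s, x (f l) = -1 := by
  induction s using Finset.induction_on with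
  | empty => exact Or.inl prod_empty
  | insert a s ha ih =>
    rw [prod_insert ha]
    rcases hx (f a) with h1 | h1 <;> rcases ih with h2 | h2 <;> rw [h1, h2] <;> norm_num

theorem prod_step (x : ℕ → ℤ) (hx : ∀ j, x j = 1 ∨ x j = -1) (i t m : ℕ) :
    (∏ l ∈ range m, x (i + l * t)) * (∏ l ∈ range m, x (i + t + l * t)) = x i * x (i + m * t) := by
  have hsq : ∀ j, x j * x j = 1 := fun j => by
    rcases hx j with h1 | h1 <;> rw [h1] <;> norm_num
  induction m with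
  | zero =>
    rw [range_zero, prod_empty, prod_empty, one_mul, zero_mul, add_zero, hsq]
  | succ m ih =>
    rw [prod_range_succ, prod_range_succ]
    have e1 : i + t + m * t = i + (m + 1) * t := by ring
    calc _ = ((∏ l ∈ range m, x (i + l * t)) * (∏ l ∈ range m, x (i + t + l * t))) * x (i + m * t) *
          x (i + t + m * t) := by ring
      _ = x i * (x (i + m * t) * x (i + m * t)) * x (i + t + m * t) := by rw [ih]; ring
      _ = _ := by rw [hsq, mul_one, e1]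

theorem abs_add_sign {u v : ℤ} (hu : u = 1 ∨ u = -1) (hv : v = 1 ∨ v = -1) : |(u : ℝ) + v| = 1 + (u * v : ℤ) := by
  rcases hu with rfl | rfl <;> rcases hv with rfl | rfl <;> norm_num

theorem kpt {h k n0 : ℕ} (hQ : Pool.Agent.Spl.HQ h k n0) (hk : 0 < k) (i m t : ℕ) (hm : 0 < m) (ht : 0 < t)
    (hs : (m * t).primeFactors ⊆ k.primeFactors) :
    Tendsto (fun Y : ℝ => (∑ V ∈ pairs k Y, |((∏ l ∈ range m, chi h (member h k n0 (i + l * t) V) : ℤ) : ℝ) +
      ((∏ l ∈ range m, chi h (member h k n0 (i + t + l * t) V) : ℤ) : ℝ)|) / ((pairs k Y).card : ℝ)) atTop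
      (nhds 1) := by
  have h1 := Pool.Agent.PairFan.mean_xx Pool.Agent.SplL.bs hQ i 0 (m * t) (Nat.mul_pos hm ht) (by simpa using hs)
  have h2 : Pool.Agent.PairFan.Sm (Pool.Agent.PairFan.bs h k n0 i) (fun X e =>
      (1 + (Pool.Agent.PairFan.xs h k 0 e : ℝ) * (Pool.Agent.PairFan.xs h k (m * t) e : ℝ)) - 1) := by
    simp only [add_sub_cancel_left]
    exact h1
  have h3 := Pool.Agent.PairFan.lim_pairs hQ i h2 (fun Y : ℝ => ∑ V ∈ pairs k Y,
    |((∏ l ∈ range m, chi h (member h k n0 (i + l * t) V) : ℤ) : ℝ) +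
      ((∏ l ∈ range m, chi h (member h k n0 (i + t + l * t) V) : ℤ) : ℝ)|) (by
    filter_upwards [eventually_ge_atTop ((h : ℝ) + 1)] with Y hY
    have hh : (0 : ℝ) ≤ h := Nat.cast_nonneg h
    have hY0 : 0 < Y := by linarith
    rw [pairs_eq hY0.le, Pool.Agent.PairFan.sum_pairs hQ i hY]
    refine sum_congr rfl fun e he => ?_
    obtain ⟨-, -, h4⟩ := Pool.Agent.PairFan.bs_mem hY0.le he
    obtain ⟨h5, h6⟩ := Pool.Agent.PairFan.mem_adm hQ h4
    obtain ⟨⟨⟨-, pa, pb, -⟩, -⟩, -⟩ := (Pool.Agent.PairFan.mem_bs (by positivity)).1 he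
    have h7 : member h k n0 i (e.a, e.b) = e.b * e.c :=
      ((member_spec (V := (e.a, e.b)) hk pa pb h5 h6 i _).1 h4).symm
    have hx : ∀ j, chi h (member h k n0 j (e.a, e.b)) = 1 ∨ chi h (member h k n0 j (e.a, e.b)) = -1 :=
      fun j => chi_or h _
    rw [abs_add_sign (prod_sign _ hx _ _) (prod_sign _ hx _ _), prod_step _ hx, member_add, h7]
    unfold Pool.Agent.PairFan.xs
    push_cast
    rw [zero_mul, add_zero]
    rfl)
  refine h3.congr' ?_
  filter_upwards [eventually_ge_atTop (0 : ℝ)] with Y hY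
  rw [pairs_eq hY]

open Classical in
theorem result :
    ∃ c : List (ℝ × ℝ × ℕ) → ℝ,
      (∀ L : List (ℝ × ℝ × ℕ), (∀ t ∈ L, 0 < t.1 ∧ t.1 ≤ t.2.1) →
        Tendsto (fun y : ℝ => (Set.ncard {n : ℕ | 1 ≤ n ∧ (n : ℝ) ≤ y ∧ Windows L y n} : ℝ) / y) atTop
          (nhds (c L))) ∧
      ∀ h k n0 : ℕ, 0 < h → 0 < k → h ∣ k → n0.Coprime k → (n0 + h).Coprime k →
        -- the pairs and the members
        ((∃ κ : ℝ, 0 < κ ∧ ∀ᶠ Y : ℝ in atTop, κ * Y ^ 2 ≤ (pairs k Y).card) ∧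
          ∀ Y : ℝ, ∀ V ∈ pairs k Y, member h k n0 0 V < V.1 * V.2 * k ∧
            ∀ n : ℕ, (V.2 ∣ n ∧ V.1 ∣ n + h ∧ n ≡ n0 [MOD k]) ↔ ∃ j, n = member h k n0 j V) ∧
        -- the two-shift law
        (∀ i s : ℕ, 0 < s → (∀ p : ℕ, p.Prime → p ∣ s → p ∣ k) →
          ∀ L : Fin 4 → List (ℝ × ℝ × ℕ), (∀ j, ∀ t ∈ L j, 0 < t.1 ∧ t.1 ≤ t.2.1) →
          ∀ q : ℕ, 0 < q → ∀ w : Fin 4 → ℕ,
            Tendsto (fun Y : ℝ => (((pairs k Y).filter (fun V => ∀ j,
                ArithmeticFunction.cardFactors (four h k n0 i s V j) ≡ w j [MOD q] ∧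
                Windows (L j) Y (four h k n0 i s V j))).card : ℝ) / ((pairs k Y).card : ℝ)) atTop
              (nhds ((∏ j, c (L j)) / (q : ℝ) ^ 4))) ∧
        -- sign patterns
        (6 ∣ k → ∀ i : ℕ, ∀ σ : Fin 3 → ℤ, (∀ j, σ j = 1 ∨ σ j = -1) → ∀ ε : ℝ, 0 < ε → ∀ᶠ Y : ℝ in atTop,
          (1 / 8 - ε) * ((pairs k Y).card : ℝ) ≤
            (((pairs k Y).filter (fun V => ∀ j : Fin 3, chi h (member h k n0 (i + j) V) = σ j)).card : ℝ) +
            (((pairs k Y).filter (fun V => ∀ j : Fin 3, chi h (member h k n0 (i + 1 + j) V) = σ j)).card : ℝ)) ∧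
        -- products over `m` members
        (∀ i m t : ℕ, 0 < m → 0 < t → (∀ p : ℕ, p.Prime → p ∣ m * t → p ∣ k) →
          Tendsto (fun Y : ℝ => (∑ V ∈ pairs k Y,
              |((∏ l ∈ range m, chi h (member h k n0 (i + l * t) V) : ℤ) : ℝ) +
                ((∏ l ∈ range m, chi h (member h k n0 (i + t + l * t) V) : ℤ) : ℝ)|) / ((pairs k Y).card : ℝ)) atTop
            (nhds 1)) ∧
        -- variances
        (∀ K : ℕ, (∀ p : ℕ, p.Prime → p < K → p ∣ k) →
          Tendsto (fun Y : ℝ => (∑ V ∈ pairs k Y, (∑ j ∈ range K, (chi h (member h k n0 j V) : ℝ)) ^ 2) /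
            ((pairs k Y).card : ℝ)) atTop (nhds K) ∧
          ∀ L L' : List (ℝ × ℝ × ℕ), (∀ t ∈ L, 0 < t.1 ∧ t.1 ≤ t.2.1) → (∀ t ∈ L', 0 < t.1 ∧ t.1 ≤ t.2.1) →
          ∀ q : ℕ, 0 < q → ∀ w w' : ℕ, ∀ p : ℝ, p = c L * c L' / (q : ℝ) ^ 2 →
            Tendsto (fun Y : ℝ => (∑ V ∈ pairs k Y, ((((range K).filter (fun j =>
                (ArithmeticFunction.cardFactors (member h k n0 j V / V.2) ≡ w [MOD q] ∧
                  Windows L Y (member h k n0 j V / V.2)) ∧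
                (ArithmeticFunction.cardFactors ((member h k n0 j V + h) / V.1) ≡ w' [MOD q] ∧
                  Windows L' Y ((member h k n0 j V + h) / V.1)))).card : ℝ) - K * p) ^ 2) /
              ((pairs k Y).card : ℝ)) atTop (nhds (K * (p * (1 - p))))) := by
  have hex : ∀ L : List (ℝ × ℝ × ℕ), ∃ x : ℝ, (∀ t ∈ L, 0 < t.1 ∧ t.1 ≤ t.2.1) →
      Pool.Agent.PairFan.Dens L.length (eu L) (ev L) (el L) x := by
    intro L
    by_cases hL : ∀ t ∈ L, 0 < t.1 ∧ t.1 ≤ t.2.1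
    · obtain ⟨x, hx⟩ := Pool.Agent.PairFan.dens_ex L.length (eu L) (ev L) (el L) ((adm_iff L).2 hL)
      exact ⟨x, fun _ => hx⟩
    · exact ⟨0, fun h => absurd h hL⟩
  choose c hc using hex
  refine ⟨c, fun L hL => (dens_iff L _).1 (hc L hL), ?_⟩
  intro h k n0 hh hk hhk hn1 hn2
  have hQ : Pool.Agent.Spl.HQ h k n0 := ⟨hh, hk, hhk, hn1, hn2⟩
  have B := Pool.Agent.SplL.bs
  refine ⟨⟨?_, ?_⟩, ?_, ?_, ?_, ?_⟩
  · obtain ⟨κ, hκ, h1⟩ := Pool.Agent.PairFan.bs_low hQ 0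
    refine ⟨κ, hκ, ?_⟩
    filter_upwards [Pool.Agent.PairFan.sq_tt.eventually h1, eventually_ge_atTop ((h : ℝ) + 1)] with Y h2 h3
    have hh' : (0 : ℝ) ≤ h := Nat.cast_nonneg h
    rw [pairs_eq (by linarith), Pool.Agent.PairFan.pairs_card hQ 0 h3]
    exact h2
  · intro Y V hV
    obtain ⟨a1, a2, a3, a4⟩ := pairs_pos hV
    have hm : 0 < V.1 * V.2 * k := Nat.mul_pos (Nat.mul_pos a1 a2) hk
    constructor
    · have := ((member_spec (n0 := n0) (h := h) hk a1 a2 a3 a4 0 _).2 rfl).1.2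
      rwa [zero_add, one_mul] at this
    · intro n
      constructor
      · intro h1
        refine ⟨n / (V.1 * V.2 * k), ?_⟩
        rw [← member_spec hk a1 a2 a3 a4]
        refine ⟨⟨Nat.div_mul_le_self n _, ?_⟩, h1⟩
        have := Nat.lt_mul_of_div_lt (Nat.lt_succ_self (n / (V.1 * V.2 * k))) hm
        exact this
      · rintro ⟨j, rfl⟩
        exact ((member_spec hk a1 a2 a3 a4 j _).2 rfl).2
  · intro i s hs0 hs L hL q hq w
    have hs' : s.primeFactors ⊆ k.primeFactors := by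
      intro p hp
      rw [Nat.mem_primeFactors] at hp ⊢
      exact ⟨hp.1, hs p hp.1 hp.2.1, hk.ne'⟩
    have h1 := Pool.Agent.PairFan.fan_law B hQ i s hs0 hs' (fun j => (L j).length) (fun j => eu (L j))
      (fun j => ev (L j)) (fun j => el (L j)) (fun j => (adm_iff (L j)).2 (hL j)) (fun j => c (L j))
      (fun j => hc _ (hL j)) q hq w
    refine h1.congr' ?_
    filter_upwards [eventually_ge_atTop (0 : ℝ)] with Y hY
    rw [← filter_mem hk i hY, ← pairs_eq hY]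
    congr 3
    refine filter_congr fun V _ => ?_
    simp only [shape_iff]
    unfold four
    rw [member_add]
  · intro h6 i σ hσ ε hε
    filter_upwards [Pool.Agent.PairFan.fan_pat B hQ h6 i σ hσ ε hε, eventually_ge_atTop (0 : ℝ)] with Y h1 hY
    have h2 : ∀ i : ℕ, (pairs k Y).filter (fun V => ∀ j : Fin 3, chi h (member h k n0 (i + j) V) = σ j) =
        (Pool.Agent.PairFan.pairs k Y).filter (Pool.Agent.PairFan.patN h k n0 σ i) := by
      intro i
      have h3 := filter_mem (h := h) (n0 := n0) hk i hY (fun V n => chi h n = σ 0 ∧ chi h (n + V.1 * V.2 * k) = σ 1 ∧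
        chi h (n + 2 * (V.1 * V.2 * k)) = σ 2)
      refine Eq.trans ?_ (h3.trans ?_)
      · refine filter_congr fun V _ => ?_
        rw [Fin.forall_fin_succ, Fin.forall_fin_succ, Fin.forall_fin_one]
        have e1 : member h k n0 (i + 1) V = member h k n0 i V + V.1 * V.2 * k := by
          rw [member_add, one_mul]
        have e2 := member_add h k n0 i 2 V
        show (chi h (member h k n0 (i + 0) V) = σ 0 ∧ chi h (member h k n0 (i + 1) V) = σ 1 ∧
          chi h (member h k n0 (i + 2) V) = σ 2) ↔ _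
        rw [add_zero, e1, e2]
      · rfl
    rw [h2 i, h2 (i + 1), pairs_eq hY]
    exact h1
  · intro i m t hm ht hmt
    refine kpt hQ hk i m t hm ht ?_
    intro p hp
    rw [Nat.mem_primeFactors] at hp ⊢
    exact ⟨hp.1, hmt p hp.1 hp.2.1, hk.ne'⟩
  · intro K hK
    have hK' : ∀ d, 0 < d → d < K → d.primeFactors ⊆ k.primeFactors := smooth_of hk hK
    constructor
    · refine (Pool.Agent.PairFan.fan_var B hQ K hK').congr' ?_
      filter_upwards [eventually_ge_atTop (0 : ℝ)] with Y hY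
      rw [← pairs_eq hY]
      congr 1
      refine sum_congr rfl fun V hV => ?_
      obtain ⟨a1, a2, a3, a4⟩ := pairs_pos hV
      obtain ⟨b1, b2⟩ := prog_members (h := h) (n0 := n0) hk a1 a2 a3 a4 K
      rw [b1, sum_image b2]
      rfl
    · intro L L' hL hL' q hq w w' p hp
      have h1 := Pool.Agent.PairFan.fan_varF B hQ K hK' ![L.length, L'.length] ![eu L, eu L'] ![ev L, ev L']
        ![el L, el L'] (by
          intro j
          fin_cases j
          · exact (adm_iff L).2 hL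
          · exact (adm_iff L').2 hL') ![c L, c L'] (by
          intro j
          fin_cases j
          · exact hc L hL
          · exact hc L' hL') q hq ![w, w'] p hp
      have e1 : (K : ℝ) * (p * (1 - p)) = K * (p - p ^ 2) := by ring
      rw [e1]
      refine h1.congr' ?_
      filter_upwards [eventually_ge_atTop (0 : ℝ)] with Y hY
      rw [← pairs_eq hY]
      congr 1
      refine sum_congr rfl fun V hV => ?_
      obtain ⟨a1, a2, a3, a4⟩ := pairs_pos hV
      obtain ⟨b1, b2⟩ := prog_members (h := h) (n0 := n0) hk a1 a2 a3 a4 K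
      rw [b1, filter_image, card_image_of_injOn (b2.mono (by
        intro x hx
        exact (mem_filter.1 hx).1))]
      congr 4
      refine filter_congr fun j _ => ?_
      exact and_congr (shape_iff q w L Y _) (shape_iff q w' L' Y _)

end Pool.Agent.Results.MP_92ef0c_nt.PairFan
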